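import Mathlib
import Pool.Agent.W2helper75.FD.Stm2

/-!
Project FD, part 2, piece KER: the kernel of a homomorphism onto `ℤ` which is not finitely generated
gives a strictly ascending structure.
-/

set_option autoImplicit false

namespace Pool.Agent.W2helper97.FD

open Pool.Agent.W2helper75.FD

variable {Γ : Type} [Group Γ]

/-- the group generated by `t^j a t^{-j}`, `a ∈ A`, `0 ≤ j` -/
def Bp (A : Set Γ) (t : Γ) : Subgroup Γ :=
  Subgroup.closure {x | ∃ a ∈ A, ∃ j : ℕ, x = t ^ j * a * (t ^ j)⁻¹}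

/-- the group generated by `t^j a t^{-j}`, `a ∈ A`, `0 ≤ j ≤ J` -/
def Bf (A : Set Γ) (t : Γ) (J : ℕ) : Subgroup Γ :=
  Subgroup.closure {x | ∃ a ∈ A, ∃ j : ℕ, j ≤ J ∧ x = t ^ j * a * (t ^ j)⁻¹}

lemma conj_mem {s : Set Γ} {H : Subgroup Γ} (t : Γ) (h : ∀ x ∈ s, t * x * t⁻¹ ∈ H) :
    ∀ x ∈ Subgroup.closure s, t * x * t⁻¹ ∈ H := by
  intro x hx
  have h1 : Subgroup.closure s ≤ H.comap (MulAut.conj t).toMonoidHom := by
    rw [Subgroup.closure_le]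
    intro y hy
    exact h y hy
  exact h1 hx

lemma Bp_mem (A : Set Γ) (t : Γ) {a : Γ} (ha : a ∈ A) (j : ℕ) :
    t ^ j * a * (t ^ j)⁻¹ ∈ Bp A t := Subgroup.subset_closure ⟨a, ha, j, rfl⟩

lemma Bf_mem (A : Set Γ) (t : Γ) (J : ℕ) {a : Γ} (ha : a ∈ A) {j : ℕ} (hj : j ≤ J) :
    t ^ j * a * (t ^ j)⁻¹ ∈ Bf A t J := Subgroup.subset_closure ⟨a, ha, j, hj, rfl⟩

lemma Bp_conj (A : Set Γ) (t : Γ) : ∀ x ∈ Bp A t, t * x * t⁻¹ ∈ Bp A t := by
  apply conj_mem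
  rintro _ ⟨a, ha, j, rfl⟩
  have h1 := Bp_mem A t ha (j + 1)
  have h2 : t ^ (j + 1) * a * (t ^ (j + 1))⁻¹ = t * (t ^ j * a * (t ^ j)⁻¹) * t⁻¹ := by
    rw [pow_succ']; group
  rwa [h2] at h1

lemma Bf_mono (A : Set Γ) (t : Γ) {J J' : ℕ} (h : J ≤ J') : Bf A t J ≤ Bf A t J' := by
  apply Subgroup.closure_mono
  rintro _ ⟨a, ha, j, hj, rfl⟩
  exact ⟨a, ha, j, hj.trans h, rfl⟩

lemma Bp_eq (A : Set Γ) (t : Γ) (x : Γ) (hx : x ∈ Bp A t) : ∃ J : ℕ, x ∈ Bf A t J := by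
  refine Subgroup.closure_induction (p := fun x _ => ∃ J : ℕ, x ∈ Bf A t J) ?_ ?_ ?_ ?_ hx
  · rintro _ ⟨a, ha, j, rfl⟩
    exact ⟨j, Bf_mem A t j ha le_rfl⟩
  · exact ⟨0, one_mem _⟩
  · rintro x y _ _ ⟨J, hJ⟩ ⟨J', hJ'⟩
    exact ⟨max J J', mul_mem (Bf_mono A t (le_max_left _ _) hJ) (Bf_mono A t (le_max_right _ _) hJ')⟩
  · rintro x _ ⟨J, hJ⟩
    exact ⟨J, inv_mem hJ⟩

/-- if `B₊` is normalised by `t`, it is the whole kernel -/
lemma Bp_ker (h : Γ →* Multiplicative ℤ) (S : Set Γ) (hS : Subgroup.closure S = ⊤) (t : Γ)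
    (A : Set Γ) (hA : ∀ s ∈ S, ∃ a ∈ A, ∃ n : ℤ, s = a * t ^ n) (hAk : ∀ a ∈ A, h a = 1)
    (ht : h t = Multiplicative.ofAdd 1) (hn : ∀ b ∈ Bp A t, t⁻¹ * b * t ∈ Bp A t) :
    Bp A t = h.ker := by
  have hle : Bp A t ≤ h.ker := by
    rw [Bp, Subgroup.closure_le]
    rintro _ ⟨a, ha, j, rfl⟩
    rw [SetLike.mem_coe, MonoidHom.mem_ker]
    simp [hAk a ha]
  apply le_antisymm hle
  -- conjugation by powers of `t`
  have hz : ∀ n : ℤ, ∀ b ∈ Bp A t, t ^ n * b * (t ^ n)⁻¹ ∈ Bp A t := by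
    have h1 : ∀ n : ℕ, ∀ b ∈ Bp A t, t ^ n * b * (t ^ n)⁻¹ ∈ Bp A t := by
      intro n
      induction n with
      | zero => intro b hb; simpa using hb
      | succ n ih =>
        intro b hb
        have h2 := Bp_conj A t _ (ih b hb)
        have h3 : t * (t ^ n * b * (t ^ n)⁻¹) * t⁻¹ = t ^ (n + 1) * b * (t ^ (n + 1))⁻¹ := by
          rw [pow_succ']; group
        rwa [h3] at h2
    have h2 : ∀ n : ℕ, ∀ b ∈ Bp A t, (t ^ n)⁻¹ * b * t ^ n ∈ Bp A t := by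
      intro n
      induction n with
      | zero => intro b hb; simpa using hb
      | succ n ih =>
        intro b hb
        have h2 := hn _ (ih b hb)
        have h3 : t⁻¹ * ((t ^ n)⁻¹ * b * t ^ n) * t = (t ^ (n + 1))⁻¹ * b * t ^ (n + 1) := by
          rw [pow_succ]; group
        rwa [h3] at h2
    intro n b hb
    obtain ⟨m, rfl | rfl⟩ := n.eq_nat_or_neg
    · simpa using h1 m b hb
    · simpa using h2 m b hb
  -- every element is `b t^n`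
  have key : ∀ x : Γ, ∃ b ∈ Bp A t, ∃ n : ℤ, x = b * t ^ n := by
    intro x
    have hx : x ∈ Subgroup.closure S := hS ▸ Subgroup.mem_top x
    refine Subgroup.closure_induction (p := fun x _ => ∃ b ∈ Bp A t, ∃ n : ℤ, x = b * t ^ n)
      ?_ ?_ ?_ ?_ hx
    · intro s hs
      obtain ⟨a, ha, n, hn⟩ := hA s hs
      have h1 := Bp_mem A t ha 0
      simp only [pow_zero, one_mul, inv_one, mul_one] at h1
      exact ⟨a, h1, n, hn⟩
    · exact ⟨1, one_mem _, 0, by simp⟩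
    · rintro x y _ _ ⟨b, hb, n, rfl⟩ ⟨b', hb', n', rfl⟩
      refine ⟨b * (t ^ n * b' * (t ^ n)⁻¹), mul_mem hb (hz n b' hb'), n + n', ?_⟩
      rw [zpow_add]; group
    · rintro x _ ⟨b, hb, n, rfl⟩
      refine ⟨t ^ (-n) * b⁻¹ * (t ^ (-n))⁻¹, hz (-n) _ (inv_mem hb), -n, ?_⟩
      group
  intro x hx
  obtain ⟨b, hb, n, rfl⟩ := key x
  have h1 : h b = 1 := hle hb
  rw [MonoidHom.mem_ker, map_mul, h1, one_mul, map_zpow, ht] at hx
  have h2 : n = 0 := by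
    have h3 := congrArg Multiplicative.toAdd hx
    simpa using h3
  rw [h2]
  simpa using hb

lemma Bf_fg (A : Set Γ) (hA : A.Finite) (t : Γ) (J : ℕ) : (Bf A t J).FG := by
  rw [Subgroup.fg_iff]
  refine ⟨_, rfl, ?_⟩
  have h1 : {x | ∃ a ∈ A, ∃ j : ℕ, j ≤ J ∧ x = t ^ j * a * (t ^ j)⁻¹} ⊆
      (fun p : Γ × ℕ => t ^ p.2 * p.1 * (t ^ p.2)⁻¹) '' (A ×ˢ (Set.Iic J)) := by
    rintro _ ⟨a, ha, j, hj, rfl⟩
    exact ⟨(a, j), ⟨ha, hj⟩, rfl⟩
  exact ((hA.prod (Set.finite_Iic J)).image _).subset h1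

/-- if `t a t⁻¹ ∈ B₋` for the finitely many `a`, then `B₊` is finitely generated -/
lemma Bp_fg (A : Set Γ) (hA : A.Finite) (t : Γ)
    (h2 : ∀ a ∈ A, t * a * t⁻¹ ∈ Bp A t⁻¹) : (Bp A t).FG := by
  have hJ2 : ∃ J : ℕ, ∀ a ∈ A, t * a * t⁻¹ ∈ Bf A t⁻¹ J := by
    have h3 : ∀ a : Γ, ∃ J : ℕ, a ∈ A → t * a * t⁻¹ ∈ Bf A t⁻¹ J := by
      intro a
      by_cases ha : a ∈ A
      · obtain ⟨J, hJ⟩ := Bp_eq A t⁻¹ _ (h2 a ha)
        exact ⟨J, fun _ => hJ⟩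
      · exact ⟨0, fun h => absurd h ha⟩
    choose J hJ using h3
    refine ⟨hA.toFinset.sup J, fun a ha => ?_⟩
    exact Bf_mono A t⁻¹ (Finset.le_sup (f := J) (hA.mem_toFinset.mpr ha)) (hJ a ha)
  obtain ⟨J, hJ⟩ := hJ2
  have hF : ∀ x ∈ Bf A t J, t * x * t⁻¹ ∈ Bf A t J := by
    apply conj_mem
    rintro _ ⟨a, ha, j, hj, rfl⟩
    rcases Nat.lt_or_ge j J with h3 | h3
    · have h4 := Bf_mem A t J ha (j := j + 1) h3
      have h5 : t ^ (j + 1) * a * (t ^ (j + 1))⁻¹ = t * (t ^ j * a * (t ^ j)⁻¹) * t⁻¹ := by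
        rw [pow_succ']; group
      rwa [h5] at h4
    · have h4 : j = J := le_antisymm hj h3
      subst h4
      have h5 : t * (t ^ j * a * (t ^ j)⁻¹) * t⁻¹ = t ^ j * (t * a * t⁻¹) * (t ^ j)⁻¹ := by
        have h6 : t * t ^ j = t ^ j * t := by rw [← pow_succ', pow_succ]
        calc t * (t ^ j * a * (t ^ j)⁻¹) * t⁻¹ = (t * t ^ j) * a * (t * t ^ j)⁻¹ := by group
          _ = (t ^ j * t) * a * (t ^ j * t)⁻¹ := by rw [h6]
          _ = _ := by group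
      rw [h5]
      have h7 : ∀ x ∈ Bf A t⁻¹ j, t ^ j * x * (t ^ j)⁻¹ ∈ Bf A t j := by
        apply conj_mem
        rintro _ ⟨a', ha', i, hi, rfl⟩
        have h8 := Bf_mem A t j ha' (j := j - i) (Nat.sub_le _ _)
        have h9 : t ^ j * (t⁻¹ ^ i * a' * (t⁻¹ ^ i)⁻¹) * (t ^ j)⁻¹
            = t ^ (j - i) * a' * (t ^ (j - i))⁻¹ := by
          have h10 : t ^ j * t⁻¹ ^ i = t ^ (j - i) := by
            rw [inv_pow, ← pow_sub_mul_pow t hi, mul_inv_cancel_right]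
          calc t ^ j * (t⁻¹ ^ i * a' * (t⁻¹ ^ i)⁻¹) * (t ^ j)⁻¹
              = (t ^ j * t⁻¹ ^ i) * a' * (t ^ j * t⁻¹ ^ i)⁻¹ := by group
            _ = _ := by rw [h10]
        rw [h9]
        exact h8
      exact h7 _ (hJ a ha)
  have hall : ∀ (j : ℕ) (a : Γ), a ∈ A → t ^ j * a * (t ^ j)⁻¹ ∈ Bf A t J := by
    intro j
    induction j with
    | zero => intro a ha; exact Bf_mem A t J ha (Nat.zero_le _)
    | succ j ih =>
      intro a ha
      have h3 := hF _ (ih a ha)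
      have h4 : t * (t ^ j * a * (t ^ j)⁻¹) * t⁻¹ = t ^ (j + 1) * a * (t ^ (j + 1))⁻¹ := by
        rw [pow_succ']; group
      rwa [h4] at h3
  have heq : Bp A t = Bf A t J := by
    apply le_antisymm
    · rw [Bp, Subgroup.closure_le]
      rintro _ ⟨a, ha, j, rfl⟩
      exact hall j a ha
    · rw [Bf, Subgroup.closure_le]
      rintro _ ⟨a, ha, j, hj, rfl⟩
      exact Bp_mem A t ha j
  rw [heq]
  exact Bf_fg A hA t J

theorem kerp : P_KER := by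
  intro Γ _ S _ hS f hf hfg
  obtain ⟨t, ht⟩ := hf (Multiplicative.ofAdd 1)
  let h : Γ → ℤ := fun x => Multiplicative.toAdd (f x)
  have hhom : ∀ x y, h (x * y) = h x + h y := by
    intro x y
    change Multiplicative.toAdd (f (x * y)) = _
    rw [map_mul, toAdd_mul]
  have hht : h t = 1 := by
    change Multiplicative.toAdd (f t) = 1
    rw [ht, toAdd_ofAdd]
  let A : Set Γ := {x | ∃ s ∈ S, x = s * t ^ (-h s)}
  have hAf : A.Finite := by
    have h1 : A ⊆ (fun s => s * t ^ (-h s)) '' (S : Set Γ) := by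
      rintro _ ⟨s, hs, rfl⟩
      exact ⟨s, hs, rfl⟩
    exact (S.finite_toSet.image _).subset h1
  have hAk : ∀ a ∈ A, f a = 1 := by
    rintro _ ⟨s, hs, rfl⟩
    rw [map_mul, map_zpow, ht]
    apply Multiplicative.toAdd.injective
    rw [toAdd_mul, toAdd_zpow, toAdd_ofAdd, toAdd_one]
    change h s + -h s • (1 : ℤ) = 0
    simp
  have hle : ∀ u : Γ, Bp A u ≤ f.ker := by
    intro u
    rw [Bp, Subgroup.closure_le]
    rintro _ ⟨a, ha, j, rfl⟩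
    rw [SetLike.mem_coe, MonoidHom.mem_ker]
    simp [hAk a ha]
  by_cases c1 : ∃ b ∈ Bp A t, t⁻¹ * b * t ∉ Bp A t
  · obtain ⟨b, hb, hb'⟩ := c1
    refine ⟨h, Bp A t, t, b, hhom, hht, ?_, Bp_conj A t, hb, hb', ?_⟩
    · intro x hx
      have h1 : f x = 1 := hle t hx
      change Multiplicative.toAdd (f x) = 0
      rw [h1, toAdd_one]
    · intro s hs m
      exact Bp_mem A t ⟨s, hs, rfl⟩ m
  · push Not at c1
    by_cases c2 : ∃ b ∈ Bp A t⁻¹, t⁻¹⁻¹ * b * t⁻¹ ∉ Bp A t⁻¹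
    · obtain ⟨b, hb, hb'⟩ := c2
      refine ⟨fun x => - h x, Bp A t⁻¹, t⁻¹, b, ?_, ?_, ?_, Bp_conj A t⁻¹, hb, hb', ?_⟩
      · intro x y
    
        rw [hhom]; ring
      · change - Multiplicative.toAdd (f t⁻¹) = 1
        rw [map_inv, toAdd_inv, neg_neg]
        exact hht
      · intro x hx
        have h1 : f x = 1 := hle _ hx
        change - Multiplicative.toAdd (f x) = 0
        rw [h1, toAdd_one, neg_zero]
      · intro s hs m
        have h1 := Bp_mem A t⁻¹ (a := s * t ^ (-h s)) ⟨s, hs, rfl⟩ m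
        have h2 : t⁻¹ ^ (- - h s) = t ^ (- h s) := by
          rw [neg_neg, inv_zpow, zpow_neg]
        change t⁻¹ ^ m * (s * t⁻¹ ^ (- - h s)) * (t⁻¹ ^ m)⁻¹ ∈ _
        rw [h2]
        exact h1
    · push Not at c2
      exfalso
      have hk : Bp A t = f.ker := by
        refine Bp_ker f (S : Set Γ) hS t A ?_ hAk ht c1
        intro s hs
        refine ⟨s * t ^ (-h s), ⟨s, hs, rfl⟩, h s, ?_⟩
        rw [mul_assoc, ← zpow_add, neg_add_cancel, zpow_zero, mul_one]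
      apply hfg
      rw [← hk]
      apply Bp_fg A hAf t
      intro a ha
      have h1 := c2 a (by
        have h3 := Bp_mem A t⁻¹ ha 0
        simpa using h3)
      rwa [inv_inv] at h1

end Pool.Agent.W2helper97.FD
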