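import Pool.Agent.W2helper75.FD.Stm3
import Pool.Agent.W2helper19.FD.Wlk

/-!
# Project FD, part 3, piece SUM: the sum of `θ ^ height` until the height is less than `l`
-/

set_option autoImplicit false

open MeasureTheory ProbabilityTheory Filter Topology
open scoped ENNReal NNReal

namespace Pool.Agent.W2helper97.FD

open Pool.Agent.W2helper75.FD Pool.Agent.W2helper19.FD

section walk

variable {X S : Type} [Fintype S]

lemma qk_nonneg (mx : X → S → X) (A : Set X) (o : X) (k : ℕ) : ∀ x, 0 ≤ qk mx A o k x := by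
  induction k with
  | zero =>
    intro x
    simp only [qk]
    split_ifs <;> norm_num
  | succ k ih =>
    intro x
    simp only [qk]
    split_ifs
    · exact div_nonneg (Finset.sum_nonneg fun s _ => ih _) (Nat.cast_nonneg _)
    · exact le_rfl

lemma qk_out (mx : X → S → X) (A : Set X) (o : X) (ho : o ∉ A) (k : ℕ) :
    ∀ x, qk mx A o k x = 0 := by
  induction k with
  | zero =>
    intro x
    simp only [qk]
    rw [if_neg]
    rintro ⟨rfl, h⟩
    exact ho h
  | succ k ih =>
    intro x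
    simp [qk, ih]

open Classical in
/-- the weight of the position at time `k` if the walk stayed in `A` -/
noncomputable def fk (mx : X → S → X) (A : Set X) (w : X → ℝ≥0∞) (k : ℕ) (x : X) (c : ℕ → S) :
    ℝ≥0∞ :=
  if ∀ j ≤ k, pth mx x c j ∈ A then w (pth mx x c k) else 0

lemma measurable_fk [MeasurableSpace S] [DiscreteMeasurableSpace S] (mx : X → S → X) (A : Set X)
    (w : X → ℝ≥0∞) (k : ℕ) (x : X) : Measurable (fk mx A w k x) := by
  unfold fk
  refine Measurable.ite ?_ ?_ measurable_const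
  · have : {c : ℕ → S | ∀ j ≤ k, pth mx x c j ∈ A} =
        ⋂ j : ℕ, ⋂ _ : j ≤ k, {c : ℕ → S | pth mx x c j ∈ A} := by
      ext c
      simp
    rw [this]
    exact MeasurableSet.iInter fun j => MeasurableSet.iInter fun _ => measurableSet_pth mx x j A
  · intro s _
    exact measurableSet_pth mx x k (w ⁻¹' s)

lemma fk_cns (mx : X → S → X) (A : Set X) (w : X → ℝ≥0∞) (k : ℕ) (x : X) (hx : x ∈ A)
    (p : S × (ℕ → S)) : fk mx A w (k + 1) x (cns p) = fk mx A w k (mx x p.1) p.2 := by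
  have h : (∀ j ≤ k + 1, pth mx x (cns p) j ∈ A) ↔ ∀ j ≤ k, pth mx (mx x p.1) p.2 j ∈ A := by
    constructor
    · intro h1 j hj
      rw [← pth_cns]
      exact h1 (j + 1) (by omega)
    · intro h1 j hj
      cases j with
      | zero => exact hx
      | succ j =>
        rw [pth_cns]
        exact h1 j (by omega)
  unfold fk
  rw [pth_cns]
  by_cases h2 : ∀ j ≤ k, pth mx (mx x p.1) p.2 j ∈ A
  · rw [if_pos (h.2 h2), if_pos h2]
  · rw [if_neg (fun h3 => h2 (h.1 h3)), if_neg h2]

lemma fk_out (mx : X → S → X) (A : Set X) (w : X → ℝ≥0∞) (k : ℕ) (x : X) (hx : x ∉ A)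
    (c : ℕ → S) : fk mx A w k x c = 0 := by
  unfold fk
  rw [if_neg]
  intro h
  exact hx (h 0 (Nat.zero_le _))

lemma unif_singleton [Nonempty S] [MeasurableSpace S] [DiscreteMeasurableSpace S] (s : S) :
    unif S {s} = ENNReal.ofReal (1 / (Fintype.card S : ℝ)) := by
  have hc : (0 : ℝ) < Fintype.card S := by exact_mod_cast Fintype.card_pos
  unfold unif
  rw [PMF.toMeasure_apply_singleton _ _ (MeasurableSet.of_discrete),
    PMF.uniformOfFintype_apply, one_div, ENNReal.ofReal_inv_of_pos hc, ENNReal.ofReal_natCast]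

lemma int_fk [Nonempty S] [MeasurableSpace S] [DiscreteMeasurableSpace S] (mx : X → S → X)
    (A : Set X) (w : X → ℝ≥0∞) (k : ℕ) : ∀ x,
    ∫⁻ c, fk mx A w k x c ∂(mlaw S) = ∑' y, ENNReal.ofReal (qk mx A y k x) * w y := by
  induction k with
  | zero =>
    intro x
    by_cases hx : x ∈ A
    · have h1 : ∀ c : ℕ → S, fk mx A w 0 x c = w x := by
        intro c
        unfold fk
        rw [if_pos]
        · rfl
        · intro j hj
          obtain rfl : j = 0 := by omega
          exact hx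
      rw [lintegral_congr h1, lintegral_const, measure_univ, mul_one, tsum_eq_single x]
      · simp [qk, hx]
      · intro y hy
        simp [qk, hy.symm]
    · rw [lintegral_congr (fk_out mx A w 0 x hx), lintegral_zero]
      symm
      rw [ENNReal.tsum_eq_zero]
      intro y
      simp [qk, hx]
  | succ k ih =>
    intro x
    by_cases hx : x ∈ A
    · have hc : (0 : ℝ) < Fintype.card S := by exact_mod_cast Fintype.card_pos
      have hmap : mlaw S = ((unif S).prod (mlaw S)).map cns := (map_cns (unif S)).symm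
      have h1 : ∫⁻ c, fk mx A w (k + 1) x c ∂(mlaw S) =
          ∫⁻ s, ∫⁻ c, fk mx A w k (mx x s) c ∂(mlaw S) ∂(unif S) := by
        conv_lhs => rw [hmap]
        rw [lintegral_map (measurable_fk mx A w (k + 1) x) measurable_cns,
          lintegral_prod (fun p => fk mx A w (k + 1) x (cns p))
            ((measurable_fk mx A w (k + 1) x).comp measurable_cns).aemeasurable]
        refine lintegral_congr fun s => lintegral_congr fun c => ?_
        exact fk_cns mx A w k x hx (s, c)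
      rw [h1, lintegral_fintype]
      simp_rw [ih, unif_singleton, ← ENNReal.tsum_mul_right]
      rw [← Summable.tsum_finsetSum fun s _ => ENNReal.summable]
      refine tsum_congr fun y => ?_
      rw [show qk mx A y (k + 1) x = ∑ s, qk mx A y k (mx x s) * (1 / (Fintype.card S : ℝ)) by
        simp only [qk]; rw [if_pos hx, Finset.sum_div]
        exact Finset.sum_congr rfl fun s _ => by ring]
      rw [ENNReal.ofReal_sum_of_nonneg
        (fun s _ => mul_nonneg (qk_nonneg mx A y k _) (by positivity)), Finset.sum_mul]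
      refine Finset.sum_congr rfl fun s _ => ?_
      rw [ENNReal.ofReal_mul (qk_nonneg mx A y k _)]
      ring
    · rw [lintegral_congr (fk_out mx A w (k + 1) x hx), lintegral_zero]
      symm
      rw [ENNReal.tsum_eq_zero]
      intro y
      simp [qk, hx]

/-- the sum over all times -/
lemma sum_fk [Nonempty S] [MeasurableSpace S] [DiscreteMeasurableSpace S] (mx : X → S → X)
    (A : Set X) (w : X → ℝ≥0∞) (x : X) (G : X → ℝ)
    (hG : ∀ y ∈ A, ∀ n : ℕ, ∑ k ∈ Finset.range n, qk mx A y k x ≤ G y) :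
    ∫⁻ c, ∑' k, fk mx A w k x c ∂(mlaw S) ≤
      ∑' y, (open Classical in if y ∈ A then ENNReal.ofReal (G y) * w y else 0) := by
  classical
  rw [lintegral_tsum fun k => (measurable_fk mx A w k x).aemeasurable]
  simp_rw [int_fk]
  rw [ENNReal.tsum_comm]
  refine ENNReal.tsum_le_tsum fun y => ?_
  rw [ENNReal.tsum_mul_right]
  by_cases hy : y ∈ A
  · rw [if_pos hy]
    refine mul_le_mul_left ?_ _
    refine ENNReal.tsum_le_of_sum_range_le fun n => ?_
    rw [← ENNReal.ofReal_sum_of_nonneg fun k _ => qk_nonneg mx A y k x]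
    exact ENNReal.ofReal_le_ofReal (hG y hy n)
  · rw [if_neg hy]
    simp [qk_out mx A y hy]

end walk

/-! ## The series -/

lemma summable_sq (θ : ℝ) (h0 : 0 < θ) (h1 : θ < 1) :
    Summable fun i : ℕ => ((i : ℝ) + 1) ^ 2 * θ ^ i := by
  have hn : ‖θ‖ < 1 := by rw [Real.norm_eq_abs, abs_of_pos h0]; exact h1
  have a2 := summable_pow_mul_geometric_of_norm_lt_one 2 hn
  have a1 := (summable_pow_mul_geometric_of_norm_lt_one 1 hn).mul_left 2
  have a0 := summable_pow_mul_geometric_of_norm_lt_one 0 hn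
  refine ((a2.add a1).add a0).congr fun i => ?_
  ring

/-- the constant -/
noncomputable def KK (θ : ℝ) : ℝ := ∑' i : ℕ, ((i : ℝ) + 1) ^ 2 * θ ^ i

lemma KK_nonneg (θ : ℝ) (h0 : 0 < θ) : 0 ≤ KK θ :=
  tsum_nonneg fun i => by positivity

lemma tsum_int (F : ℤ → ℝ≥0∞) (l : ℤ) (hF : ∀ m < l, F m = 0) :
    ∑' m : ℤ, F m = ∑' i : ℕ, F (l + i) := by
  symm
  have hinj : Function.Injective fun i : ℕ => l + (i : ℤ) := by
    intro i j hij
    have : (i : ℤ) = j := by simpa using hij
    exact_mod_cast this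
  refine hinj.tsum_eq (f := F) ?_
  intro m hm
  have h1 : l ≤ m := by
    by_contra h2
    exact hm (hF m (not_le.1 h2))
  exact ⟨(m - l).toNat, by simp only; omega⟩

lemma series (θ : ℝ) (h0 : 0 < θ) (h1 : θ < 1) (B : ℝ) (hB : 0 ≤ B) (l : ℤ) :
    ∑' m : ℤ, (open Classical in if l ≤ m then
      ENNReal.ofReal (B * ((m : ℝ) - l + 1) ^ 2) * ENNReal.ofReal (θ ^ m) else 0) =
      ENNReal.ofReal (B * KK θ * θ ^ l) := by
  classical
  rw [tsum_int _ l (fun m hm => if_neg (not_le.2 hm))]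
  have h2 : ∀ i : ℕ, (if l ≤ l + (i : ℤ) then
      ENNReal.ofReal (B * (((l + (i : ℤ) : ℤ) : ℝ) - l + 1) ^ 2) *
        ENNReal.ofReal (θ ^ (l + (i : ℤ))) else 0) =
      ENNReal.ofReal (B * θ ^ l * (((i : ℝ) + 1) ^ 2 * θ ^ i)) := by
    intro i
    rw [if_pos (by omega), ← ENNReal.ofReal_mul (by positivity)]
    congr 1
    rw [zpow_add₀ h0.ne', zpow_natCast]
    push_cast
    ring
  rw [tsum_congr h2, ← ENNReal.ofReal_tsum_of_nonneg (fun i => by positivity)
    ((summable_sq θ h0 h1).mul_left _), tsum_mul_left]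
  congr 1
  unfold KK
  ring

/-! ## The quotient -/

section quot

variable {Γ : Type} [Group Γ] (H : Subgroup Γ) (h : Γ → ℤ)

/-- right cosets -/
abbrev JJ : Type := Quotient (QuotientGroup.rightRel H)

/-- the class of `g` -/
def rho (g : Γ) : JJ H := Quotient.mk _ g

lemma rho_eq (g k : Γ) : rho H g = rho H k ↔ k * g⁻¹ ∈ H := by
  unfold rho
  rw [Quotient.eq]
  exact QuotientGroup.rightRel_apply

lemma rho_mul (x g : Γ) (hx : x ∈ H) : rho H (x * g) = rho H g := by
  rw [rho_eq]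
  have : g * (x * g)⁻¹ = x⁻¹ := by group
  rw [this]
  exact H.inv_mem hx

lemma rho_out (j : JJ H) : rho H j.out = j := Quotient.out_eq j

lemma out_rho (g : Γ) : ∃ x ∈ H, g = x * (rho H g).out := by
  have h1 : rho H (rho H g).out = rho H g := rho_out H _
  rw [rho_eq] at h1
  exact ⟨_, h1, by group⟩

/-- coset and height -/
def pr (g : Γ) : JJ H × ℤ := (rho H g, h g)

/-- right multiplication by `γ` -/
noncomputable def act (x : JJ H × ℤ) (γ : Γ) : JJ H × ℤ :=
  (rho H (x.1.out * γ), x.2 + (h (x.1.out * γ) - h x.1.out))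

variable (hm : ∀ x ∈ H, ∀ g, h (x * g) = h x + h g)

include hm in
lemma act_pr (g γ : Γ) : act H h (pr H h g) γ = pr H h (g * γ) := by
  obtain ⟨x, hx, hg⟩ := out_rho H g
  unfold act pr
  simp only
  set r := (rho H g).out with hr
  rw [hg, mul_assoc, rho_mul H x _ hx, hm x hx, hm x hx]
  congr 1
  ring

include hm in
lemma h_one : h 1 = 0 := by
  have := hm 1 H.one_mem 1
  rw [mul_one] at this
  omega

include hm in
lemma h_pow (t : Γ) (ht : t ∈ H) (h1 : h t = 1) (n : ℕ) : h (t ^ n) = n := by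
  induction n with
  | zero => simpa using h_one H h hm
  | succ n ih =>
    rw [pow_succ', hm t ht, ih, h1]
    push_cast
    ring

include hm in
lemma h_zpow (t : Γ) (ht : t ∈ H) (h1 : h t = 1) (k : ℤ) : h (t ^ k) = k := by
  obtain ⟨n, rfl | rfl⟩ := k.eq_nat_or_neg
  · rw [zpow_natCast]
    exact h_pow H h hm t ht h1 n
  · have h2 := hm (t ^ (-(n : ℤ))) (H.zpow_mem ht _) (t ^ n)
    rw [h_pow H h hm t ht h1 n, zpow_neg, zpow_natCast, inv_mul_cancel, h_one H h hm] at h2
    rw [zpow_neg, zpow_natCast]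
    omega

include hm in
lemma pr_surj (t : Γ) (ht : t ∈ H) (h1 : h t = 1) (j : JJ H) (m : ℤ) :
    pr H h (t ^ (m - h j.out) * j.out) = (j, m) := by
  unfold pr
  rw [rho_mul H _ _ (H.zpow_mem ht _), rho_out, hm _ (H.zpow_mem ht _),
    h_zpow H h hm t ht h1]
  congr 1
  ring

end quot

/-! ## The walk on the quotient -/

section main

variable {Γ : Type} [Group Γ] (S : Finset Γ) (H : Subgroup Γ) (h : Γ → ℤ)

/-- the move `s` on the quotient -/
noncomputable def mxq (x : JJ H × ℤ) (s : S) : JJ H × ℤ := act H h x (s : Γ)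

variable (hm : ∀ x ∈ H, ∀ g, h (x * g) = h x + h g)

include hm in
lemma pth_pr (g : Γ) (c : ℕ → S) (k : ℕ) :
    pth (mxq S H h) (pr H h g) c k = pr H h (g * pos c k) := by
  induction k with
  | zero => simp [pth, pos]
  | succ k ih =>
    have h1 : pth (mxq S H h) (pr H h g) c (k + 1) =
        mxq S H h (pth (mxq S H h) (pr H h g) c k) (c k) := rfl
    have h2 : (pos c (k + 1) : Γ) = pos c k * (c k : Γ) := rfl
    rw [h1, ih, h2, ← mul_assoc]
    exact act_pr H h hm _ _

include hm in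
lemma word (hsym : ∀ s ∈ S, s⁻¹ ∈ S) (hgen : Subgroup.closure (S : Set Γ) = ⊤) (γ : Γ) :
    ∃ l : List S, ∀ g, run (mxq S H h) (pr H h g) l = pr H h (g * γ) := by
  have hγ : γ ∈ (Subgroup.closure (S : Set Γ)).toSubmonoid := by
    rw [hgen]
    trivial
  rw [Subgroup.closure_toSubmonoid] at hγ
  obtain ⟨L, hL, hp⟩ := Submonoid.exists_list_of_mem_closure hγ
  subst hp
  clear hγ
  induction L with
  | nil => exact ⟨[], fun g => by simp [run]⟩
  | cons y L ih =>
    obtain ⟨l, hl⟩ := ih fun z hz => hL z (List.mem_cons_of_mem _ hz)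
    have hy : y ∈ S := by
      rcases hL y List.mem_cons_self with h1 | h1
      · exact h1
      · have h2 : y⁻¹ ∈ S := h1
        have := hsym _ h2
        rwa [inv_inv] at this
    refine ⟨⟨y, hy⟩ :: l, fun g => ?_⟩
    have h1 : run (mxq S H h) (pr H h g) (⟨y, hy⟩ :: l) =
        run (mxq S H h) (mxq S H h (pr H h g) ⟨y, hy⟩) l := rfl
    have h2 : mxq S H h (pr H h g) ⟨y, hy⟩ = pr H h (g * y) := act_pr H h hm _ _
    rw [h1, h2, hl, List.prod_cons, mul_assoc]

include hm in
lemma word_pow (v : List S) (γ : Γ)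
    (hv : ∀ g, run (mxq S H h) (pr H h g) v = pr H h (g * γ)) (i : ℕ) :
    ∃ l : List S, l.length = i * v.length ∧
      ∀ g, run (mxq S H h) (pr H h g) l = pr H h (g * γ ^ i) := by
  induction i with
  | zero => exact ⟨[], by simp, fun g => by simp [run]⟩
  | succ i ih =>
    obtain ⟨l, hl, h1⟩ := ih
    refine ⟨l ++ v, by rw [List.length_append, hl]; ring, fun g => ?_⟩
    have h2 : run (mxq S H h) (pr H h g) (l ++ v) =
        run (mxq S H h) (run (mxq S H h) (pr H h g) l) v := by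
      unfold run
      rw [List.foldl_append]
    rw [h2, h1, hv, pow_succ, mul_assoc]

include hm in
/-- a short word leads to a height less than `l` -/
lemma words (hfin : Finite (JJ H)) (hsym : ∀ s ∈ S, s⁻¹ ∈ S)
    (hgen : Subgroup.closure (S : Set Γ) = ⊤) (t : Γ) (ht : t ∈ H) (h1 : h t = 1) :
    ∃ C : ℝ, 0 ≤ C ∧ ∀ (l : ℤ) (j : JJ H) (m : ℤ), l ≤ m → ∃ w : List S,
      (run (mxq S H h) (j, m) w).2 < l ∧ (w.length : ℝ) ≤ C * ((m : ℝ) - l + 1) := by
  classical
  have := Fintype.ofFinite (JJ H)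
  choose u hu using word S H h hm hsym hgen
  set v := u t⁻¹ with hv
  set a : ℕ := ∑ j : JJ H, (u (j.out)⁻¹).length with ha
  set B : ℕ := ∑ j : JJ H, (h j.out).natAbs with hB
  refine ⟨a + (1 + B) * v.length, by positivity, ?_⟩
  intro l j m hlm
  have haj : (u (j.out)⁻¹).length ≤ a :=
    Finset.single_le_sum (f := fun j : JJ H => (u (j.out)⁻¹).length) (fun _ _ => Nat.zero_le _)
      (Finset.mem_univ j)
  have hBj : (h j.out).natAbs ≤ B :=
    Finset.single_le_sum (f := fun j : JJ H => (h j.out).natAbs) (fun _ _ => Nat.zero_le _)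
      (Finset.mem_univ j)
  obtain ⟨N, hN⟩ : ∃ N : ℕ, N = (h j.out).natAbs := ⟨_, rfl⟩
  rw [← hN] at hBj
  obtain ⟨i, hi⟩ : ∃ i : ℕ, (i : ℤ) = m - l + 1 + N := ⟨(m - l + 1 + N).toNat, by omega⟩
  obtain ⟨z, hz, hz1⟩ := word_pow S H h hm v t⁻¹ (hu t⁻¹) i
  refine ⟨u (j.out)⁻¹ ++ z, ?_, ?_⟩
  · have h2 : run (mxq S H h) (j, m) (u (j.out)⁻¹ ++ z) =
        run (mxq S H h) (run (mxq S H h) (j, m) (u (j.out)⁻¹)) z := by
      unfold run
      rw [List.foldl_append]
    rw [h2, ← pr_surj H h hm t ht h1 j m, hu, hz1]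
    have h3 : t ^ (m - h j.out) * j.out * (j.out)⁻¹ * t⁻¹ ^ i =
        t ^ (m - h j.out - i) := by
      rw [mul_inv_cancel_right, inv_pow, zpow_sub t _ (i : ℤ), zpow_natCast]
    rw [h3]
    show h (t ^ (m - h j.out - i)) < l
    rw [h_zpow H h hm t ht h1]
    omega
  · rw [List.length_append, hz]
    have h2 : (i : ℝ) = (m : ℝ) - l + 1 + N := by exact_mod_cast hi
    have h3 : (1 : ℝ) ≤ (m : ℝ) - l + 1 := by
      have : (l : ℝ) ≤ m := by exact_mod_cast hlm
      linarith
    have h4 : ((u (j.out)⁻¹).length : ℝ) ≤ a := by exact_mod_cast haj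
    have h5 : (N : ℝ) ≤ B := by exact_mod_cast hBj
    push_cast
    rw [h2]
    have h6 : (a : ℝ) ≤ a * ((m : ℝ) - l + 1) := le_mul_of_one_le_right (by positivity) h3
    have h7 : (B : ℝ) ≤ B * ((m : ℝ) - l + 1) := le_mul_of_one_le_right (by positivity) h3
    have h8 : ((m : ℝ) - l + 1 + N) * v.length ≤
        ((m : ℝ) - l + 1 + B * ((m : ℝ) - l + 1)) * v.length :=
      mul_le_mul_of_nonneg_right (by linarith) (Nat.cast_nonneg _)
    calc ((u (j.out)⁻¹).length : ℝ) + ((m : ℝ) - l + 1 + N) * v.length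
        ≤ a * ((m : ℝ) - l + 1) + ((m : ℝ) - l + 1 + B * ((m : ℝ) - l + 1)) * v.length := by
          linarith
      _ = (a + (1 + B) * v.length) * ((m : ℝ) - l + 1) := by ring

end main

theorem sum3 (h1 : P_GRN) : P_SUM := by
  intro Γ _ S _ _ _ H h b θ D t hs
  classical
  have hm := hs.h_mul
  have hfin : Finite (JJ H) := by
    have := hs.fin
    have : Finite (Γ ⧸ H) := Subgroup.finite_quotient_of_finiteIndex
    exact Finite.of_equiv _ (QuotientGroup.quotientRightRelEquivQuotientLeftRel H).symm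
  have := Fintype.ofFinite (JJ H)
  obtain ⟨C, hC, hw⟩ := words S H h hm hfin hs.sym hs.gen t hs.t_mem hs.ht
  set B : ℝ := 2 * (Fintype.card S : ℝ) * C ^ 2 with hB
  have hB0 : 0 ≤ B := by positivity
  refine ⟨Fintype.card (JJ H) * (B * KK θ), by
    have := KK_nonneg θ hs.θ0
    positivity, fun g l => ?_⟩
  set A : Set (JJ H × ℤ) := {x | l ≤ x.2} with hA
  set w : JJ H × ℤ → ℝ≥0∞ := fun x => ENNReal.ofReal (θ ^ x.2) with hwt
  set inv : S → S := fun s => ⟨(s : Γ)⁻¹, hs.sym s s.2⟩ with hinv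
  have hi1 : ∀ s, inv (inv s) = s := by
    intro s
    apply Subtype.ext
    simp [hinv]
  have hi2 : ∀ x s, mxq S H h (mxq S H h x s) (inv s) = x := by
    rintro ⟨j, m⟩ s
    rw [← pr_surj H h hm t hs.t_mem hs.ht j m]
    have h2 : ∀ g' (s' : S), mxq S H h (pr H h g') s' = pr H h (g' * (s' : Γ)) :=
      fun g' s' => act_pr H h hm _ _
    rw [h2, h2]
    simp [hinv]
  have hG : ∀ y ∈ A, ∀ n : ℕ, ∑ k ∈ Finset.range n, qk (mxq S H h) A y k (pr H h g) ≤
      B * ((y.2 : ℝ) - l + 1) ^ 2 := by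
    rintro ⟨j, m⟩ hy n
    obtain ⟨v, hv, hv1⟩ := hw l j m hy
    refine (h1 _ S (mxq S H h) inv hi1 hi2 A (j, m) v (by
      simp only [hA, Set.mem_ofPred_eq]; exact not_le.2 hv) n _).trans ?_
    have h3 : (v.length : ℝ) ^ 2 ≤ (C * ((m : ℝ) - l + 1)) ^ 2 :=
      pow_le_pow_left₀ (Nat.cast_nonneg _) hv1 2
    calc 2 * (Fintype.card S : ℝ) * (v.length : ℝ) ^ 2
        ≤ 2 * (Fintype.card S : ℝ) * (C * ((m : ℝ) - l + 1)) ^ 2 :=
          mul_le_mul_of_nonneg_left h3 (by positivity)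
      _ = B * ((m : ℝ) - l + 1) ^ 2 := by rw [hB]; ring
  have hmain := sum_fk (mxq S H h) A w (pr H h g) (fun y => B * ((y.2 : ℝ) - l + 1) ^ 2) hG
  have hlhs : ∫⁻ c : ℕ → S, ∑' k : ℕ, (if ∀ j ≤ k, l ≤ h (g * pos c j) then
      ENNReal.ofReal (θ ^ h (g * pos c k)) else 0) ∂(mlaw S) =
      ∫⁻ c, ∑' k, fk (mxq S H h) A w k (pr H h g) c ∂(mlaw S) := by
    refine lintegral_congr fun c => tsum_congr fun k => ?_
    unfold fk
    simp only [pth_pr S H h hm]
    rfl
  refine (le_of_eq ?_).trans (hmain.trans (le_of_eq ?_))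
  · convert hlhs
  · rw [ENNReal.tsum_prod']
    refine (tsum_congr (g := fun _ => ENNReal.ofReal (B * KK θ * θ ^ l)) fun j => ?_).trans ?_
    · rw [← series θ hs.θ0 hs.θ1 B hB0 l]
      refine tsum_congr fun m => ?_
      by_cases hlm : l ≤ m
      · rw [if_pos hlm, if_pos (show ((j, m) : JJ H × ℤ) ∈ A from hlm)]
      · rw [if_neg hlm, if_neg (show ((j, m) : JJ H × ℤ) ∉ A from hlm)]
    · rw [tsum_fintype, Finset.sum_const, Finset.card_univ, nsmul_eq_mul,
        ← ENNReal.ofReal_natCast, ← ENNReal.ofReal_mul (Nat.cast_nonneg _)]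
      congr 1
      ring

end Pool.Agent.W2helper97.FD
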